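import Pool.Agent.Helper35.PI2.St

set_option autoImplicit false

namespace Helper36.PI2

open Helper35.PI Helper35.PI2
open scoped ContDiff Manifold Topology ENNReal BigOperators
open MeasureTheory Set Filter

private def PP (E D : ℝ → ℝ≥0∞) (K : ℝ) (a b : ℝ) : Prop :=
  E b + ∫⁻ r in Icc a b, D r ≤ E a + ENNReal.ofReal (K * (b - a))

private theorem pp_trans {E D : ℝ → ℝ≥0∞} {K : ℝ} (hK : 0 ≤ K) {a b c : ℝ} (hab : a ≤ b)
    (hbc : b ≤ c) (h1 : PP E D K a b) (h2 : PP E D K b c) : PP E D K a c := by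
  unfold PP at *
  have hsub : ∫⁻ r in Icc a c, D r ≤ (∫⁻ r in Icc a b, D r) + ∫⁻ r in Icc b c, D r := by
    rw [← Icc_union_Icc_eq_Icc hab hbc]
    exact lintegral_union_le _ _ _
  have hK' : ENNReal.ofReal (K * (c - a)) =
      ENNReal.ofReal (K * (b - a)) + ENNReal.ofReal (K * (c - b)) := by
    rw [← ENNReal.ofReal_add (mul_nonneg hK (by linarith)) (mul_nonneg hK (by linarith))]
    congr 1
    ring
  calc E c + ∫⁻ r in Icc a c, D r
      ≤ E c + ((∫⁻ r in Icc a b, D r) + ∫⁻ r in Icc b c, D r) := by gcongr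
    _ = (∫⁻ r in Icc a b, D r) + (E c + ∫⁻ r in Icc b c, D r) := by ring
    _ ≤ (∫⁻ r in Icc a b, D r) + (E b + ENNReal.ofReal (K * (c - b))) := by gcongr
    _ = (E b + ∫⁻ r in Icc a b, D r) + ENNReal.ofReal (K * (c - b)) := by ring
    _ ≤ (E a + ENNReal.ofReal (K * (b - a))) + ENNReal.ofReal (K * (c - b)) := by gcongr
    _ = E a + ENNReal.ofReal (K * (c - a)) := by rw [hK']; ring

theorem hCI : StCI := by
  intro E D K hK hloc hlsc s₁ s₂ h12 h2
  have key : Icc s₁ s₂ ⊆ {s : ℝ | ∀ r ∈ Icc s₁ s, PP E D K s₁ r} := by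
    have h11 : PP E D K s₁ s₁ := by
      unfold PP
      simp
    refine IsClosed.Icc_subset_of_forall_exists_gt ?_ ?_ ?_
    · -- closedness
      refine isClosed_of_closure_subset fun x hx => ?_
      have hxI : x ∈ Icc s₁ s₂ := by
        have : closure ({s : ℝ | ∀ r ∈ Icc s₁ s, PP E D K s₁ r} ∩ Icc s₁ s₂) ⊆ Icc s₁ s₂ :=
          closure_minimal inter_subset_right isClosed_Icc
        exact this hx
      refine ⟨?_, hxI⟩
      have hlt : ∀ r ∈ Ico s₁ x, PP E D K s₁ r := by
        intro r hr
        rw [mem_closure_iff] at hx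
        obtain ⟨s, hs, hsS⟩ := hx (Ioi r) isOpen_Ioi hr.2
        exact hsS.1 r ⟨hr.1, le_of_lt hs⟩
      intro r hr
      rcases lt_or_eq_of_le hr.2 with h | h
      · exact hlt r ⟨hr.1, h⟩
      subst h
      rcases eq_or_lt_of_le hr.1 with h | h
      · rw [← h]; exact h11
      -- r > s₁
      obtain ⟨u, hmono, hult, hutend⟩ := exists_seq_strictMono_tendsto' h
      have hB : ∀ k, E (u k) + ∫⁻ q in Icc s₁ (u k), D q ≤
          E s₁ + ENNReal.ofReal (K * (r - s₁)) := by
        intro k
        refine (hlt (u k) ⟨(hult k).1.le, (hult k).2⟩).trans ?_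
        gcongr
        exact (hult k).2.le
      have hE : E r ≤ liminf (fun k => E (u k)) atTop :=
        hlsc r (lt_of_le_of_lt hxI.2 h2) u hutend fun k => (hult k).2
      have hI : ∫⁻ q in Icc s₁ r, D q = ⨆ k, ∫⁻ q in Icc s₁ (u k), D q := by
        have e1 : ∫⁻ q in Icc s₁ r, D q = ∫⁻ q in Ico s₁ r, D q := by
          exact setLIntegral_congr Ico_ae_eq_Icc.symm
        have e2 : Ico s₁ r = ⋃ k, Icc s₁ (u k) := by
          ext q
          simp only [mem_Ico, mem_iUnion, mem_Icc]
          constructor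
          · rintro ⟨h3, h4⟩
            obtain ⟨k, hk⟩ := (hutend.eventually (lt_mem_nhds h4)).exists
            exact ⟨k, h3, hk.le⟩
          · rintro ⟨k, h3, h4⟩
            exact ⟨h3, lt_of_le_of_lt h4 (hult k).2⟩
        rw [e1, e2]
        refine setLIntegral_iUnion_of_directed _ ?_
        refine Monotone.directed_le fun i j hij => ?_
        exact Icc_subset_Icc_right (hmono.monotone hij)
      show E r + ∫⁻ q in Icc s₁ r, D q ≤ E s₁ + ENNReal.ofReal (K * (r - s₁))
      rw [hI, ENNReal.add_iSup]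
      refine iSup_le fun j => ?_
      set B := E s₁ + ENNReal.ofReal (K * (r - s₁)) with hBdef
      set I := ∫⁻ q in Icc s₁ (u j), D q with hIdef
      have hIB : I ≤ B := le_trans (le_add_self) (hB j)
      by_cases hItop : I = ⊤
      · rw [hItop] at hIB
        rw [top_le_iff.1 hIB]
        exact le_top
      have hle : liminf (fun k => E (u k)) atTop ≤ B - I := by
        refine liminf_le_of_frequently_le' ?_
        refine Eventually.frequently ?_
        filter_upwards [eventually_ge_atTop j] with k hk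
        refine ENNReal.le_sub_of_add_le_right hItop ?_
        refine le_trans ?_ (hB k)
        have hmm : I ≤ ∫⁻ q in Icc s₁ (u k), D q :=
          lintegral_mono_set (Icc_subset_Icc_right (hmono.monotone hk))
        gcongr
      calc E r + I ≤ (B - I) + I := by
            gcongr
            exact hE.trans hle
        _ = B := tsub_add_cancel_of_le hIB
    · intro r hr
      have : r = s₁ := le_antisymm hr.2 hr.1
      rw [this]; exact h11
    · rintro x ⟨hxS, hx⟩ y hy
      obtain ⟨η, hη, hl⟩ := hloc x (lt_trans hx.2 h2)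
      refine ⟨min y (min (x + η) s₂), ?_, ?_⟩
      · intro r hr
        rcases le_or_gt r x with h | h
        · exact hxS r ⟨hr.1, h⟩
        · have hr2 : r ≤ x + η := hr.2.trans ((min_le_right _ _).trans (min_le_left _ _))
          have hr3 : r ≤ s₂ := hr.2.trans ((min_le_right _ _).trans (min_le_right _ _))
          refine pp_trans hK hx.1 h.le (hxS x ⟨hx.1, le_rfl⟩) ?_
          exact hl x r le_rfl h.le hr2 (lt_of_le_of_lt hr3 h2)
      · refine ⟨?_, min_le_left _ _⟩
        refine lt_min hy (lt_min (by linarith) hx.2)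
  exact key ⟨h12, le_rfl⟩ s₂ ⟨h12, le_rfl⟩

end Helper36.PI2
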